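import Pool.Agent.U843.PD.NORM
import Pool.Agent.U571.PD.SYS1
import Pool.Agent.U439.PD.SYS2
import Pool.Agent.U94.PD.IMP
import Pool.Agent.U296.PD.TAN
import Pool.Agent.U430.PD.FRAME
import Pool.Agent.U941.PD.CROSS
import Pool.Agent.U356.PD.CON1
import Pool.Agent.U978.PD.CON2
import Pool.Agent.U55.PD.UNIQ
import Pool.Agent.U446.PD.GLOB
import Pool.Agent.U458.PD.LEAF1
import Pool.Agent.U869.PD.LEAF2
import Pool.Agent.U354.PD.FULL
import Pool.Agent.U892.PD.ALG
import Pool.Agent.U892.PD.Bd
import Pool.Agent.U892.PD.Sw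

/-!
# MP_ae5b4e_an: the converse of the involution theorem of Desargues

The involution theorem of Desargues: the conics of a pencil meet every line in the pairs of points
of a projective involution. This file proves a converse. Let a smooth foliation `{F = const}` of a
connected open set `Ω` of the plane have leaves with nonzero curvature, and suppose that on every
tangent line of every leaf the involution which exchanges the two points of each nearby leaf is
projective. No curve is assumed to be closed or to be a conic, and the projective involutions are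
arbitrary. Then all leaves lie on conics of one pencil. Every compact leaf is a whole ellipse of
the pencil. Every curve `γ` which bounds a compact set and which is a limit of compact leaves (for
instance the closed convex curve `γ` of the problem, `Ω` being the open one-sided neighbourhood of
`γ`) is an ellipse of the pencil, too.

So the conclusion of Q1 holds if the involutions are projective on the tangent lines of all leaves
near `γ`, not only on those of `γ` itself. It holds under the very hypothesis of Q1, the involutions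
`σ_p`, `p ∈ γ`, being projective (near `p`, on intervals of a common length), if the foliation has
sufficiently many affine symmetries: every point near `γ` is the image of a point of `γ` under an
affine map which shifts `F` by a constant. This is so if the leaves are the images `g_t γ` of `γ` for
any one-parameter group `g_t` of affine maps, for instance `e^{tA} γ` for any matrix `A`.

Proof. Let `y = a + b x` be the lines near a line tangent to a leaf. The sum `S` and the product
`P` of the abscissas of the two points of a leaf satisfy `S_b = S S_a - P_a`, `P_b = P S_a`, and the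
involution is a relation `S = φ P + ψ`, where `φ`, `ψ` do not depend on the leaf. Differentiation
leads to a closed system of differential equations for twelve functions of `(a, b)`, whose
integrability conditions imply `T = S_aa = 0` by elimination. `S_aa = 0` is the relation of Reiss and
means that the leaves are pieces of conics; they belong to one pencil locally, then globally.
-/

set_option autoImplicit false

open Filter Topology Set
open scoped ContDiff

namespace Pool.Agent.Results.MP_ae5b4e_an.ConverseDesargues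

/-- The level curves of `F` are a smooth foliation of the open set `Ω` and all leaves have nonzero
curvature: if the line through `p` with the direction `v` is tangent to the leaf at `p`, the second
derivative of `F` along this line at `p` is not zero. -/
structure Foliation (Ω : Set (ℝ × ℝ)) (F : ℝ × ℝ → ℝ) : Prop where
  isOpen : IsOpen Ω
  smooth : ∀ p ∈ Ω, ContDiffAt ℝ ∞ F p
  regular : ∀ p ∈ Ω, fderiv ℝ F p ≠ 0
  curved : ∀ p ∈ Ω, ∀ v : ℝ × ℝ, v ≠ 0 → fderiv ℝ F p v = 0 →
    iteratedDeriv 2 (fun s : ℝ => F (p + s • v)) 0 ≠ 0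

/-- On the tangent line of the leaf at `p` (direction `v`) the involution which exchanges the two
points of each leaf near `p` (the points `p + s v`, `p - t v`, `0 < s, t < r`) is projective, that is,
`1 / s - 1 / t` is the same number `m` for all these leaves. -/
def ProjectiveAt (F : ℝ × ℝ → ℝ) (p : ℝ × ℝ) (r : ℝ) : Prop :=
  ∀ v : ℝ × ℝ, ‖v‖ = 1 → fderiv ℝ F p v = 0 → ∃ m : ℝ, ∀ s t : ℝ, 0 < s → s < r → 0 < t → t < r →
    F (p + s • v) = F (p - t • v) → 1 / s - 1 / t = m

/-- The involutions are projective on the tangent lines of all leaves, locally uniformly. -/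
def Projective (Ω : Set (ℝ × ℝ)) (F : ℝ × ℝ → ℝ) : Prop :=
  ∀ p₀ ∈ Ω, ∃ r : ℝ, 0 < r ∧ ∀ p ∈ Ω, dist p p₀ < r → ProjectiveAt F p r

/-- `γ` is swept over `Ω` by affine symmetries of the foliation: every point of `Ω` is the image
of a point of `γ` under an affine map `x ↦ L x + b` which shifts `F` by a constant `c`; the inverses
of the linear parts `L` are bounded. -/
def SweptOver (Ω : Set (ℝ × ℝ)) (F : ℝ × ℝ → ℝ) (γ : Set (ℝ × ℝ)) : Prop :=
  ∃ M : ℝ, ∀ p ∈ Ω, ∃ (L : (ℝ × ℝ) ≃L[ℝ] (ℝ × ℝ)) (b : ℝ × ℝ) (c : ℝ), (∃ x ∈ γ, L x + b = p) ∧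
    (∀ v, ‖L.symm v‖ ≤ M * ‖v‖) ∧ ∀ x ∈ Ω, L x + b ∈ Ω → F (L x + b) = F x + c

/-- The involutions are projective on the tangent lines of all leaves, or at least on those at the
points of a compact set `γ` which is swept over `Ω` by affine symmetries of the foliation. -/
def ProjectiveOrSwept (Ω : Set (ℝ × ℝ)) (F : ℝ × ℝ → ℝ) : Prop :=
  Projective Ω F ∨ ∃ γ ⊆ Ω, IsCompact γ ∧ SweptOver Ω F γ ∧
    ∃ r : ℝ, 0 < r ∧ ∀ p ∈ γ, ProjectiveAt F p r

/-- The value at the point `p` of the polynomial of degree at most two with the coefficients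
`Q`. -/
def quad (Q : Fin 6 → ℝ) (p : ℝ × ℝ) : ℝ :=
  Q 0 + Q 1 * p.1 + Q 2 * p.2 + Q 3 * p.1 ^ 2 + Q 4 * (p.1 * p.2) + Q 5 * p.2 ^ 2

/-- Near `q` every leaf of `F` lies on a conic `l Q₁ + m Q₂ = 0`, `(l, m) ≠ (0, 0)`, of the pencil
spanned by `Q₁` and `Q₂`. -/
def LocPencil (F : ℝ × ℝ → ℝ) (q : ℝ × ℝ) (Q₁ Q₂ : Fin 6 → ℝ) : Prop :=
  ∃ V ∈ 𝓝 q, ∀ p ∈ V, ∃ l m : ℝ, (l ≠ 0 ∨ m ≠ 0) ∧
    ∀ p' ∈ V, F p' = F p → l * quad Q₁ p' + m * quad Q₂ p' = 0

/-- `K` is a compact leaf: a compact connected subset of `Ω`, `F = c` on `K`, and near every point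
of `K` the level set `{F = c}` is contained in `K`. -/
structure CompactLeaf (Ω : Set (ℝ × ℝ)) (F : ℝ × ℝ → ℝ) (K : Set (ℝ × ℝ)) (c : ℝ) : Prop where
  sub : K ⊆ Ω
  compact : IsCompact K
  conn : IsConnected K
  level : ∀ p ∈ K, F p = c
  isOpen : ∀ p ∈ K, ∀ᶠ p' in 𝓝 p, F p' = c → p' ∈ K

/-- `K` is the whole ellipse `l Q₁ + m Q₂ = 0` for some `l`, `m`: the quadratic part of
`l Q₁ + m Q₂` is definite. -/
def IsEllipseOf (Q₁ Q₂ : Fin 6 → ℝ) (K : Set (ℝ × ℝ)) : Prop :=
  ∃ l m : ℝ, K = {p | quad (l • Q₁ + m • Q₂) p = 0} ∧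
    (l • Q₁ + m • Q₂) 4 ^ 2 < 4 * (l • Q₁ + m • Q₂) 3 * (l • Q₁ + m • Q₂) 5

/-- If the involutions are projective on the tangent lines of all leaves, or at least on those of a
compact set swept over `Ω` by affine symmetries, then the leaves lie on the conics of one pencil, and
the compact leaves and their limits which bound compact sets with interior points are ellipses of
this pencil. -/
theorem result (Ω : Set (ℝ × ℝ)) (F : ℝ × ℝ → ℝ) (hF : Foliation Ω F) (hc : IsConnected Ω)
    (hP : ProjectiveOrSwept Ω F) :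
    ∃ Q₁ Q₂ : Fin 6 → ℝ, LinearIndependent ℝ ![Q₁, Q₂] ∧
      (∀ q ∈ Ω, LocPencil F q Q₁ Q₂) ∧
      (∀ (K : Set (ℝ × ℝ)) (c : ℝ), CompactLeaf Ω F K c → IsEllipseOf Q₁ Q₂ K) ∧
      ∀ D : Set (ℝ × ℝ), IsCompact D → (interior D).Nonempty →
        ∀ (K : ℕ → Set (ℝ × ℝ)) (c : ℕ → ℝ), (∀ n, CompactLeaf Ω F (K n) (c n)) →
          (∀ p ∈ frontier D, ∃ x : ℕ → ℝ × ℝ, (∀ n, x n ∈ K n) ∧ Tendsto x atTop (𝓝 p)) →
          IsEllipseOf Q₁ Q₂ (frontier D) := by
  have hF' : Pool.Agent.U892.PD.Foliation Ω F := ⟨hF.isOpen, hF.smooth, hF.regular, hF.curved⟩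
  have hfin : Pool.Agent.U892.PD.Final :=
    Pool.Agent.U892.PD.final Pool.Agent.U843.PD.t_NORM Pool.Agent.U571.PD.t_SYS1
      Pool.Agent.U439.PD.t_SYS2 Pool.Agent.U892.PD.ALG.t_ALG
      (Pool.Agent.U941.PD.t_CROSS Pool.Agent.U94.PD.t_IMP Pool.Agent.U296.PD.t_TAN
        Pool.Agent.U430.PD.t_FRAME)
      Pool.Agent.U356.PD.t_CON1 Pool.Agent.U978.PD.t_CON2 Pool.Agent.U55.PD.t_UNIQ
      Pool.Agent.U446.PD.t_GLOB Pool.Agent.U458.PD.t_LEAF1 Pool.Agent.U869.PD.t_LEAF2
      Pool.Agent.U354.PD.t_FULL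
  have hP' : Pool.Agent.U892.PD.Projective Ω F := by
    rcases hP with h | ⟨γ, hγ, hγc, ⟨M, hM⟩, r, hr, hp⟩
    · exact h
    · exact Pool.Agent.U892.PD.Sw.transport hF' hγc hγ hM hr hp
  obtain ⟨Q₁, Q₂, hli, hloc, hK⟩ := hfin Ω F hF' hc hP'
  have hK' : ∀ (K : Set (ℝ × ℝ)) (c : ℝ), CompactLeaf Ω F K c → IsEllipseOf Q₁ Q₂ K :=
    fun K c h => hK K c ⟨h.sub, h.compact, h.conn, h.level, h.isOpen⟩
  refine ⟨Q₁, Q₂, hli, hloc, hK', fun D hD hne K c hKn hlim => ?_⟩
  obtain ⟨l, m, hlm, h1⟩ := Pool.Agent.U892.PD.Bd.limit (Q₁ := Q₁) (Q₂ := Q₂) (K := K)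
    (fun n => hK' (K n) (c n) (hKn n))
  have hR : l • Q₁ + m • Q₂ ≠ 0 := Pool.Agent.U446.PD.comb_ne Q₁ Q₂ hli l m hlm
  exact ⟨l, m, Pool.Agent.U892.PD.Bd.ellipse hD hne hR fun p hp => h1 p (hlim p hp)⟩

end Pool.Agent.Results.MP_ae5b4e_an.ConverseDesargues
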