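import Pool.Agent.TH242.MK.OutReg

/-!
# Few integrable billiards in families of ovals

The case of MP_ae5b4e_an in which all `σ_p` are the point reflections in `p` (outer billiards) and
the leaves are the level sets of a real analytic function near `γ`, and, by projective duality, the
inner billiard with a real analytic first integral near the boundary.

Let `u_1, ..., u_k` be ANY functions on the real line.  Among the ovals which are not circles, whose
radius of curvature `ρ`, as a function of the normal angle, is entire and of the form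
`b ρ = c_1 u_1 + ... + c_k u_k + q` with entire functions `b ≠ 0`, `c_i`, `q` of growth at most
`exp (A e^{σ|z|})`, `σ < 1` (for example trigonometric polynomials), at most `k` are integrable, up to
homothety.  The same holds with respect to other entire motions of a point on the ovals, for
instance for the curvatures as functions of the arc length.  If `γ` is an integrable oval with
entire `ρ` and not a circle, then no oval with the radius of curvature `a ρ + p`, `a ≠ 0`, `p` a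
nonzero trigonometric polynomial, is integrable; in particular, none of the parallel curves of `γ`.

Proof.  Integrability makes the complexified curve regular at every complex time, so that the `ρ_j`
have no complex zeros, `ρ_j = e^{h_j}`.  Among more than `k` of them there is a linear relation over
the functions of small growth.  A theorem of Borel's type with small functions of order less than
one in `e^{iz}` as coefficients makes two of the `ρ_j` proportional or one of them constant.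
-/

set_option autoImplicit false

open Complex Set

namespace Pool.Agent.Results.MP_ae5b4e_an.FewInFamily

/-- `γ` is a closed plane curve with positive continuous radius of curvature `ρ`, parametrised by
its normal angle: `γ'(s) = ρ(s) i e^{is}`; the outer unit normal at `γ s` is `e^{is}`. -/
def IsOval (γ : ℝ → ℂ) (ρ : ℝ → ℝ) : Prop :=
  (∀ s, γ (s + 2 * Real.pi) = γ s) ∧ Continuous ρ ∧ (∀ s, 0 < ρ s) ∧
    ∀ s : ℝ, HasDerivAt γ ((ρ s : ℂ) * I * cexp (s * I)) s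

/-- the point at signed distance `δ` from `γ s` on the tangent line at `γ s` -/
noncomputable def tangentPoint (γ : ℝ → ℂ) (s δ : ℝ) : ℂ := γ s + δ * (I * cexp (s * I))

/-- `K(x, y)` is a nonconstant real analytic first integral of the outer billiard about `γ` near
`γ`: it is analytic and nonconstant on a connected neighbourhood `U` of `γ`, and for every `s` it
has the same value at the two points at distance `δ` from `γ s` on the tangent line at `γ s`, which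
the reflection in `γ s` exchanges, for all small `δ > 0`. -/
def OuterIntegral (γ : ℝ → ℂ) (K : ℝ → ℝ → ℝ) (U : Set (ℝ × ℝ)) : Prop :=
  IsOpen U ∧ IsPreconnected U ∧ (∀ s, ((γ s).re, (γ s).im) ∈ U) ∧
    AnalyticOnNhd ℝ (Function.uncurry K) U ∧
    (∀ s : ℝ, ∃ ε > 0, ∀ δ : ℝ, 0 < δ → δ < ε →
      K (tangentPoint γ s δ).re (tangentPoint γ s δ).im
        = K (tangentPoint γ s (-δ)).re (tangentPoint γ s (-δ)).im) ∧
    ∃ z ∈ U, ∃ w ∈ U, K z.1 z.2 ≠ K w.1 w.2

/-- support coordinate of the line with unit normal `e^{iφ}` through the point `z`: the line is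
`{x | Re (x e^{-iφ}) = support z φ}` -/
noncomputable def support (z : ℂ) (φ : ℝ) : ℝ := (z * cexp (-(φ * I))).re

/-- `K(φ, p)` is a nonconstant real analytic first integral of the billiard inside `γ` near the
boundary: a function of the oriented line with normal angle `φ` and support coordinate `p`, which
is analytic and nonconstant near the tangent lines of `γ` (`|p - support (γ φ) φ| < ε`; periodicity
in `φ` is not required), and which for every `s` has the same value at the two lines through `γ s`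
with normal angles `s + δ` and `s - δ` (exchanged by the reflection in `γ` at `γ s`), for all small
`δ > 0`. -/
def InnerIntegral (γ : ℝ → ℂ) (K : ℝ → ℝ → ℝ) (ε : ℝ) : Prop :=
  0 < ε ∧ AnalyticOnNhd ℝ (Function.uncurry K) {z | |z.2 - support (γ z.1) z.1| < ε} ∧
    (∀ s : ℝ, ∃ εs > 0, ∀ δ : ℝ, 0 < δ → δ < εs →
      K (s + δ) (support (γ s) (s + δ)) = K (s - δ) (support (γ s) (s - δ))) ∧
    ∃ φ p ψ q : ℝ, |p - support (γ φ) φ| < ε ∧ |q - support (γ ψ) ψ| < ε ∧ K φ p ≠ K ψ q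

/-- the outer billiard about `γ` or the billiard inside `γ` has a nonconstant real analytic first
integral near `γ` -/
def IsIntegrable (γ : ℝ → ℂ) : Prop :=
  (∃ (K : ℝ → ℝ → ℝ) (U : Set (ℝ × ℝ)), OuterIntegral γ K U) ∨
    ∃ (K : ℝ → ℝ → ℝ) (ε : ℝ), InnerIntegral γ K ε

/-- `f` is entire with `|f(z)| ≤ exp (A e^{σ|z|})`, `σ < 1`; for example a trigonometric polynomial
or `G(e^{iz})`, where `G` is holomorphic on `ℂ ∖ {0}` of order less than one at `0` and `∞` -/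
def Slow (f : ℂ → ℂ) : Prop :=
  Differentiable ℂ f ∧ ∃ A σ : ℝ, σ < 1 ∧ ∀ z : ℂ, ‖f z‖ ≤ Real.exp (A * Real.exp (σ * ‖z‖))

/-- `t ↦ γ (θ t)`, where `θ` is onto and `γ` has the radius of curvature `ρ`, is a motion on `γ`
with angular velocity of the normal `θ' = w` and speed `ρ(θ) θ' = v`, where `v` and `w` are
`2π`-periodic entire functions -/
def IsMotion (ρ θ : ℝ → ℝ) (v w : ℂ → ℂ) : Prop :=
  Function.Surjective θ ∧ Differentiable ℂ v ∧ Differentiable ℂ w ∧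
    (∀ z, v (z + 2 * Real.pi) = v z) ∧ (∀ z, w (z + 2 * Real.pi) = w z) ∧
    (∀ t : ℝ, HasDerivAt (fun t : ℝ => (θ t : ℂ)) (w t) t) ∧ ∀ t : ℝ, v t = ρ (θ t) * w t

/-- the oval is a circle -/
def IsCircle (γ : ℝ → ℂ) : Prop := ∃ (z : ℂ) (r : ℝ), 0 < r ∧ Set.range γ = Metric.sphere z r

lemma tangentPoint_re (γ : ℝ → ℂ) (s δ : ℝ) :
    (tangentPoint γ s δ).re = (γ s).re - δ * Real.sin s := by
  simp [tangentPoint, Complex.exp_ofReal_mul_I_re, Complex.exp_ofReal_mul_I_im]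
  ring

lemma tangentPoint_im (γ : ℝ → ℂ) (s δ : ℝ) :
    (tangentPoint γ s δ).im = (γ s).im + δ * Real.cos s := by
  simp [tangentPoint, Complex.exp_ofReal_mul_I_re, Complex.exp_ofReal_mul_I_im]

lemma oInt {γ : ℝ → ℂ} {K : ℝ → ℝ → ℝ} {U : Set (ℝ × ℝ)} (h : OuterIntegral γ K U) :
    H719FX.OInt γ K U := by
  obtain ⟨h1, h2, h3, h4, h5, z, hz, w, hw, hne⟩ := h
  refine ⟨h1, h2, h3, h4, fun s => ?_, ?_⟩
  · obtain ⟨ε, hε, h⟩ := h5 s
    refine ⟨ε, hε, fun δ hδ hδ' => ?_⟩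
    have := h δ hδ hδ'
    simpa [tangentPoint_re, tangentPoint_im, sub_eq_add_neg] using this
  · rintro ⟨c, hc⟩
    exact hne ((hc z hz).trans (hc w hw).symm)

lemma dat {γ : ℝ → ℂ} {ρ θ : ℝ → ℝ} {v w : ℂ → ℂ} (h : IsMotion ρ θ v w) :
    Pool.Agent.TH242.MK.Dat γ ρ θ v w :=
  ⟨h.2.1, h.2.2.1, h.2.2.2.1, h.2.2.2.2.1, h.1, h.2.2.2.2.2.1, h.2.2.2.2.2.2⟩

lemma tm {f : ℂ → ℂ} (h : Slow f) : ∃ σ : ℝ, σ < 1 ∧ ∀ σ' : ℝ, σ ≤ σ' → 0 ≤ σ' →
    Pool.Agent.TH242.MK.Tm σ' f := by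
  obtain ⟨hd, A, σ, hσ, hA⟩ := h
  refine ⟨σ, hσ, fun σ' h1 h2 => ⟨hd, max A 0, le_max_right _ _, fun z => (hA z).trans ?_⟩⟩
  apply Real.exp_le_exp.2
  have e1 : Real.exp (σ * ‖z‖) ≤ Real.exp (σ' * ‖z‖) :=
    Real.exp_le_exp.2 (mul_le_mul_of_nonneg_right h1 (norm_nonneg z))
  exact (mul_le_mul_of_nonneg_right (le_max_left A 0) (Real.exp_pos _).le).trans
    (mul_le_mul_of_nonneg_left e1 (le_max_right _ _))

lemma ovl {γ : ℝ → ℂ} {ρ : ℝ → ℝ} (hO : IsOval γ ρ) : H738CZ.IsOval γ ρ :=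
  ⟨hO.1, hO.2.1, hO.2.2.1, hO.2.2.2⟩

/-- integrability gives a zero-free extension of the radius of curvature along the motion -/
lemma ext {γ : ℝ → ℂ} {ρ θ : ℝ → ℝ} {v w : ℂ → ℂ} (hO : IsOval γ ρ) (hm : IsMotion ρ θ v w)
    (hI : IsIntegrable γ) : ∃ P : ℂ → ℂ, Pool.Agent.TH242.MK.Ext (fun t => ρ (θ t)) P := by
  have hOv := ovl hO
  have hD : Pool.Agent.TH242.MK.Dat γ ρ θ v w := dat hm
  obtain ⟨Z, W, Θ, hc, hZ, hW⟩ := hD.curve hOv
  refine hD.ext hOv hc fun t0 => ?_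
  rcases hI with ⟨K, U, hK⟩ | ⟨K, ε, hε, hK, hsym, φ, p, ψ, p', hp, hp', hne⟩
  · exact Pool.Agent.TH242.MK.outer_reg hOv (oInt hK) hD.cont hD.sur
      (fun t => (hc.hZ t).differentiableAt) (fun t => (hc.hW t).differentiableAt) hZ hW t0
  · exact Pool.Agent.TH242.MK.inner_reg hOv hε hK hsym (by
      rintro ⟨k, hk⟩
      exact hne ((hk φ p hp).trans (hk ψ p' hp').symm)) hD.cont hD.sur
      (fun t => (hc.hZ t).differentiableAt) (fun t => (hc.hW t).differentiableAt) hZ hW t0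

lemma common {ι : Type} [Finite ι] {f : ι → ℂ → ℂ} (h : ∀ i, Slow (f i)) :
    ∃ σ : ℝ, σ < 1 ∧ ∀ σ' : ℝ, σ ≤ σ' → 0 ≤ σ' → ∀ i, Pool.Agent.TH242.MK.Tm σ' (f i) := by
  choose s hs hs' using fun i => tm (h i)
  have : Nonempty (Set.Iio (1 : ℝ)) := ⟨⟨0, Set.mem_Iio.2 zero_lt_one⟩⟩
  obtain ⟨M, hM⟩ := Finite.exists_le (fun i => (⟨s i, hs i⟩ : Set.Iio (1 : ℝ)))
  refine ⟨M.1, M.2, fun σ' h1 h2 i => hs' i σ' ?_ h2⟩
  have h3 : s i ≤ M.1 := hM i
  exact h3.trans h1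

lemma main {k n : ℕ} {γ : Fin n → ℝ → ℂ} {ρ θ : Fin n → ℝ → ℝ} {v w : Fin n → ℂ → ℂ}
    {u : Fin k → ℝ → ℂ} {b q : Fin n → ℂ → ℂ} {c : Fin n → Fin k → ℂ → ℂ}
    (h : ∀ j, IsOval (γ j) (ρ j) ∧ IsIntegrable (γ j) ∧ ¬ IsCircle (γ j) ∧
      IsMotion (ρ j) (θ j) (v j) (w j))
    (hnp : ∀ i j, i ≠ j → ¬ ∃ a : ℝ, ∀ t, ρ i (θ i t) = a * ρ j (θ j t))
    (hs : ∀ j, Slow (b j) ∧ (∃ z, b j z ≠ 0) ∧ Slow (q j) ∧ ∀ i, Slow (c j i))
    (hρ : ∀ j, ∀ t : ℝ, b j t * ρ j (θ j t) = ∑ i, c j i t * u i t + q j t) : n ≤ k := by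
  choose P hP using fun j => ext (h j).1 (h j).2.2.2 (h j).2.1
  obtain ⟨σ1, h1, h1'⟩ := common fun j => (hs j).1
  obtain ⟨σ2, h2, h2'⟩ := common fun j => (hs j).2.2.1
  obtain ⟨σ3, h3, h3'⟩ := common fun x : Fin n × Fin k => (hs x.1).2.2.2 x.2
  obtain ⟨σ, hσdef⟩ : ∃ σ : ℝ, σ = max 0 (max σ1 (max σ2 σ3)) := ⟨_, rfl⟩
  have hσ : σ < 1 := by rw [hσdef]; exact max_lt zero_lt_one (max_lt h1 (max_lt h2 h3))
  have hσ0 : 0 ≤ σ := by rw [hσdef]; exact le_max_left _ _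
  have e1 : σ1 ≤ σ := by rw [hσdef]; exact (le_max_left _ _).trans (le_max_right _ _)
  have e2 : σ2 ≤ σ := by
    rw [hσdef]
    exact (le_max_left _ _).trans ((le_max_right _ _).trans (le_max_right _ _))
  have e3 : σ3 ≤ σ := by
    rw [hσdef]
    exact (le_max_right _ _).trans ((le_max_right _ _).trans (le_max_right _ _))
  refine Pool.Agent.TH242.MK.few (ρ := fun j t => ρ j (θ j t)) hP (fun j => ?_) hnp hσ0 hσ u
    (h1' σ e1 hσ0) (fun j => (hs j).2.1) (fun j i => h3' σ e3 hσ0 (j, i)) (h2' σ e2 hσ0) hρ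
  rintro ⟨x, hx⟩
  refine (h j).2.2.1 (Pool.Agent.TH242.MK.circle (ovl (h j).1) (c := x) fun s => ?_)
  obtain ⟨t, rfl⟩ := (h j).2.2.2.1 s
  exact hx t

lemma slow_one : Slow (fun _ => (1 : ℂ)) := by
  refine ⟨differentiable_const _, 1, 0, zero_lt_one, fun z => ?_⟩
  simp

/-- the radius of curvature is periodic -/
lemma per {γ : ℝ → ℂ} {ρ : ℝ → ℝ} (hO : IsOval γ ρ) (s : ℝ) : ρ (s + 2 * Real.pi) = ρ s := by
  obtain ⟨h1, -, -, h4⟩ := hO
  have e1 : HasDerivAt (fun s : ℝ => γ (s + 2 * Real.pi))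
      ((ρ (s + 2 * Real.pi) : ℂ) * I * cexp ((s + 2 * Real.pi : ℝ) * I)) s :=
    (h4 (s + 2 * Real.pi)).comp_add_const s (2 * Real.pi)
  have e2 : (fun s : ℝ => γ (s + 2 * Real.pi)) = γ := funext h1
  rw [e2] at e1
  have e3 := e1.unique (h4 s)
  have e4 : cexp ((s + 2 * Real.pi : ℝ) * I) = cexp (s * I) := by
    have : ((s + 2 * Real.pi : ℝ) : ℂ) * I = s * I + 2 * Real.pi * I := by push_cast; ring
    rw [this, Complex.exp_add, Complex.exp_two_pi_mul_I, mul_one]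
  rw [e4] at e3
  have e5 : cexp (s * I) ≠ 0 := Complex.exp_ne_zero _
  have e6 := mul_right_cancel₀ I_ne_zero (mul_right_cancel₀ e5 e3)
  exact_mod_cast e6

/-- the motion by the normal angle -/
lemma motion {γ : ℝ → ℂ} {ρ : ℝ → ℝ} {R : ℂ → ℂ} (hO : IsOval γ ρ) (hR : Differentiable ℂ R)
    (hRr : ∀ x : ℝ, R x = ρ x) : IsMotion ρ (fun t => t) R (fun _ => 1) := by
  refine ⟨fun t => ⟨t, rfl⟩, hR, differentiable_const _, fun z => ?_, fun _ => rfl, fun t => ?_,
    fun t => ?_⟩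
  · refine Pool.Agent.TH242.MK.eq_of_real (F := fun z => R (z + 2 * Real.pi)) (G := R)
      (fun z => DifferentiableAt.comp z (hR _) (differentiableAt_id.add_const _)) hR
      (fun x => ?_) z
    have h1 := hRr (x + 2 * Real.pi)
    rw [per hO x, ← hRr x] at h1
    simpa using h1
  · exact (hasDerivAt_id t).ofReal_comp
  · rw [mul_one]
    exact hRr t

/-- proportional radii of curvature: homothetic ovals -/
lemma homothetic {γ γ' : ℝ → ℂ} {ρ ρ' : ℝ → ℝ} (hO : IsOval γ ρ) (hO' : IsOval γ' ρ') {a : ℝ}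
    (h : ∀ t, ρ' t = a * ρ t) : 0 < a ∧ ∃ z : ℂ, ∀ s, γ' s = a * γ s + z := by
  have ha : 0 < a := by
    have h1 := h 0
    have h2 := hO.2.2.1 0
    have h3 := hO'.2.2.1 0
    rw [h1] at h3
    exact (pos_iff_pos_of_mul_pos h3).2 h2
  refine ⟨ha, γ' 0 - a * γ 0, fun s => ?_⟩
  refine Pool.Agent.TH242.MK.eq_real (f := γ') (g := fun s => a * γ s + (γ' 0 - a * γ 0))
    (f' := fun s => (ρ' s : ℂ) * I * cexp (s * I)) hO'.2.2.2 (fun t => ?_) (by ring) s
  have h1 := ((hO.2.2.2 t).const_mul (a : ℂ)).add_const (γ' 0 - a * γ 0)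
  refine h1.congr_deriv ?_
  rw [h t]
  push_cast
  ring

lemma angle {k n : ℕ} {γ : Fin n → ℝ → ℂ} {ρ : Fin n → ℝ → ℝ} {R : Fin n → ℂ → ℂ}
    {u : Fin k → ℝ → ℂ} {b q : Fin n → ℂ → ℂ} {c : Fin n → Fin k → ℂ → ℂ}
    (h : ∀ j, IsOval (γ j) (ρ j) ∧ IsIntegrable (γ j) ∧ ¬ IsCircle (γ j) ∧
      Differentiable ℂ (R j) ∧ ∀ x : ℝ, R j x = ρ j x)
    (hnp : ∀ i j, i ≠ j → ¬ ∃ (a : ℝ) (z : ℂ), 0 < a ∧ ∀ s, γ i s = a * γ j s + z)
    (hs : ∀ j, Slow (b j) ∧ (∃ z, b j z ≠ 0) ∧ Slow (q j) ∧ ∀ i, Slow (c j i))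
    (hρ : ∀ j, ∀ t : ℝ, b j t * ρ j t = ∑ i, c j i t * u i t + q j t) : n ≤ k := by
  refine main (γ := γ) (ρ := ρ) (θ := fun _ t => t) (v := R) (w := fun _ _ => 1) (u := u)
    (b := b) (q := q) (c := c) (fun j => ⟨(h j).1, (h j).2.1, (h j).2.2.1,
      motion (h j).1 (h j).2.2.2.1 (h j).2.2.2.2⟩) (fun i j hij => ?_) hs hρ
  rintro ⟨a, ha⟩
  obtain ⟨ha0, z, hz⟩ := homothetic (h j).1 (h i).1 ha
  exact hnp i j hij ⟨a, z, ha0, hz⟩

/-- an integrable oval with a radius of curvature of small growth is a circle -/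
lemma slow_circle {γ : ℝ → ℂ} {ρ : ℝ → ℝ} {p : ℂ → ℂ} (hO : IsOval γ ρ) (hI : IsIntegrable γ)
    (hp : Slow p) (hpr : ∀ x : ℝ, p x = ρ x) : IsCircle γ := by
  by_contra hn
  have h1 := angle (k := 0) (n := 1) (γ := fun _ => γ) (ρ := fun _ => ρ) (R := fun _ => p)
    (u := fun _ _ => 0) (b := fun _ _ => 1) (q := fun _ => p) (c := fun _ _ _ => 0)
    (fun _ => ⟨hO, hI, hn, hp.1, hpr⟩) (fun i j hij => absurd (Subsingleton.elim i j) hij)
    (fun _ => ⟨slow_one, ⟨0, one_ne_zero⟩, hp, fun i => i.elim0⟩) (fun _ t => by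
      simp [hpr t])
  exact absurd h1 (by norm_num)

lemma Slow.mul_const {f : ℂ → ℂ} (hf : Slow f) (x : ℂ) : Slow fun z => x * f z := by
  obtain ⟨hd, A, σ, hσ, h⟩ := hf
  obtain ⟨B, hB⟩ : ∃ B : ℝ, B = Real.log (‖x‖ + 1) := ⟨_, rfl⟩
  have hB0 : 0 ≤ B := by rw [hB]; exact Real.log_nonneg (by linarith [norm_nonneg x])
  have hx : ‖x‖ ≤ Real.exp B := by
    rw [hB, Real.exp_log (by linarith [norm_nonneg x])]; linarith
  refine ⟨hd.const_mul x, max A 0 + B, max σ 0, max_lt hσ zero_lt_one, fun z => ?_⟩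
  rw [norm_mul]
  refine (mul_le_mul hx (h z) (norm_nonneg _) (Real.exp_pos _).le).trans ?_
  rw [← Real.exp_add]
  apply Real.exp_le_exp.2
  have e1 : Real.exp (σ * ‖z‖) ≤ Real.exp (max σ 0 * ‖z‖) :=
    Real.exp_le_exp.2 (mul_le_mul_of_nonneg_right (le_max_left _ _) (norm_nonneg z))
  have e2 : 1 ≤ Real.exp (max σ 0 * ‖z‖) :=
    Real.one_le_exp (mul_nonneg (le_max_right _ _) (norm_nonneg z))
  have e3 : A * Real.exp (σ * ‖z‖) ≤ max A 0 * Real.exp (max σ 0 * ‖z‖) :=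
    (mul_le_mul_of_nonneg_right (le_max_left A 0) (Real.exp_pos _).le).trans
      (mul_le_mul_of_nonneg_left e1 (le_max_right _ _))
  nlinarith

lemma Slow.add_const {f : ℂ → ℂ} (hf : Slow f) (x : ℂ) : Slow fun z => x + f z := by
  obtain ⟨hd, A, σ, hσ, h⟩ := hf
  obtain ⟨B, hB⟩ : ∃ B : ℝ, B = Real.log (‖x‖ + 1) := ⟨_, rfl⟩
  have hB0 : 0 ≤ B := by rw [hB]; exact Real.log_nonneg (by linarith [norm_nonneg x])
  have hx : ‖x‖ + 1 = Real.exp B := by
    rw [hB, Real.exp_log (by linarith [norm_nonneg x])]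
  refine ⟨hd.const_add x, max A 0 + B, max σ 0, max_lt hσ zero_lt_one, fun z => ?_⟩
  have e1 : Real.exp (σ * ‖z‖) ≤ Real.exp (max σ 0 * ‖z‖) :=
    Real.exp_le_exp.2 (mul_le_mul_of_nonneg_right (le_max_left _ _) (norm_nonneg z))
  have e2 : 1 ≤ Real.exp (max σ 0 * ‖z‖) :=
    Real.one_le_exp (mul_nonneg (le_max_right _ _) (norm_nonneg z))
  have e3 : A * Real.exp (σ * ‖z‖) ≤ max A 0 * Real.exp (max σ 0 * ‖z‖) :=
    (mul_le_mul_of_nonneg_right (le_max_left A 0) (Real.exp_pos _).le).trans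
      (mul_le_mul_of_nonneg_left e1 (le_max_right _ _))
  have e4 : ‖f z‖ ≤ Real.exp (max A 0 * Real.exp (max σ 0 * ‖z‖)) :=
    (h z).trans (Real.exp_le_exp.2 e3)
  have e5 : 1 ≤ Real.exp (max A 0 * Real.exp (max σ 0 * ‖z‖)) :=
    Real.one_le_exp (mul_nonneg (le_max_right _ _) (Real.exp_pos _).le)
  calc ‖x + f z‖ ≤ ‖x‖ + ‖f z‖ := norm_add_le _ _
    _ ≤ (‖x‖ + 1) * Real.exp (max A 0 * Real.exp (max σ 0 * ‖z‖)) := by
        nlinarith [norm_nonneg x]
    _ = Real.exp (B + max A 0 * Real.exp (max σ 0 * ‖z‖)) := by rw [hx, ← Real.exp_add]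
    _ ≤ Real.exp ((max A 0 + B) * Real.exp (max σ 0 * ‖z‖)) := by
        apply Real.exp_le_exp.2
        nlinarith

/-- Let `γ_1, ..., γ_n` be ovals which are not circles, and let the outer billiard about `γ_j` or the
billiard inside `γ_j` have a nonconstant real analytic first integral near `γ_j`, for all `j`.  Let
`u_1, ..., u_k` be any functions on the real line.  Slow entire functions are those of growth at
most `exp (A e^{σ|z|})`, `σ < 1`, for example trigonometric polynomials.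

1. If the radii of curvature `ρ_j`, as functions of the normal angle, extend to entire functions,
no two of the ovals are homothetic, and `b_j ρ_j = c_j1 u_1 + ... + c_jk u_k + q_j` with slow
functions `b_j ≠ 0`, `c_ji`, `q_j`, then `n ≤ k`.

2. The same holds for the radii of curvature `ρ_j(θ_j(t))` along motions with entire speeds and
angular velocities on the ovals, if no two of these functions of `t` are proportional.

3. Let `γ` be an integrable oval whose radius of curvature `ρ`, as a function of the normal angle,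
extends to an entire function, and let `γ` be no circle.  Let `a ≠ 0` be a real number and `p` a
slow function, not identically zero.  Then no oval with the radius of curvature `a ρ + p` is
integrable.  In particular no parallel curve `γ + r e^{is}`, `r ≠ 0`, is integrable. -/
theorem result :
    (∀ (k n : ℕ) (γ : Fin n → ℝ → ℂ) (ρ : Fin n → ℝ → ℝ) (R : Fin n → ℂ → ℂ) (u : Fin k → ℝ → ℂ)
      (b q : Fin n → ℂ → ℂ) (c : Fin n → Fin k → ℂ → ℂ),
      (∀ j, IsOval (γ j) (ρ j) ∧ IsIntegrable (γ j) ∧ ¬ IsCircle (γ j) ∧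
        Differentiable ℂ (R j) ∧ ∀ x : ℝ, R j x = ρ j x) →
      (∀ i j, i ≠ j → ¬ ∃ (a : ℝ) (z : ℂ), 0 < a ∧ ∀ s, γ i s = a * γ j s + z) →
      (∀ j, Slow (b j) ∧ (∃ z, b j z ≠ 0) ∧ Slow (q j) ∧ ∀ i, Slow (c j i)) →
      (∀ j, ∀ t : ℝ, b j t * ρ j t = ∑ i, c j i t * u i t + q j t) → n ≤ k) ∧
    (∀ (k n : ℕ) (γ : Fin n → ℝ → ℂ) (ρ θ : Fin n → ℝ → ℝ) (v w : Fin n → ℂ → ℂ)
      (u : Fin k → ℝ → ℂ) (b q : Fin n → ℂ → ℂ) (c : Fin n → Fin k → ℂ → ℂ),
      (∀ j, IsOval (γ j) (ρ j) ∧ IsIntegrable (γ j) ∧ ¬ IsCircle (γ j) ∧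
        IsMotion (ρ j) (θ j) (v j) (w j)) →
      (∀ i j, i ≠ j → ¬ ∃ a : ℝ, ∀ t, ρ i (θ i t) = a * ρ j (θ j t)) →
      (∀ j, Slow (b j) ∧ (∃ z, b j z ≠ 0) ∧ Slow (q j) ∧ ∀ i, Slow (c j i)) →
      (∀ j, ∀ t : ℝ, b j t * ρ j (θ j t) = ∑ i, c j i t * u i t + q j t) → n ≤ k) ∧
    ∀ (γ γ' : ℝ → ℂ) (ρ ρ' : ℝ → ℝ) (R p : ℂ → ℂ) (a : ℝ), IsOval γ ρ → IsIntegrable γ →
      ¬ IsCircle γ → Differentiable ℂ R → (∀ x : ℝ, R x = ρ x) → a ≠ 0 → Slow p →
      (∃ z, p z ≠ 0) → IsOval γ' ρ' → (∀ x : ℝ, (ρ' x : ℂ) = a * ρ x + p x) →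
      ¬ IsIntegrable γ' := by
  refine ⟨fun k n γ ρ R u b q c h hnp hs hρ => angle h hnp hs hρ,
    fun k n γ ρ θ v w u b q c h hnp hs hρ => main h hnp hs hρ, ?_⟩
  intro γ γ' ρ ρ' R p a hO hI hn hR hRr ha hp hp0 hO' hρ' hI'
  have ha' : (a : ℂ) ≠ 0 := by exact_mod_cast ha
  have hslow : ∀ x y : ℂ, (∀ t : ℝ, (ρ t : ℂ) = x + y * p t) → False := by
    intro x y hx
    exact hn (slow_circle hO hI ((hp.mul_const y).add_const x) fun t => (hx t).symm)
  have hn1 : ¬ ∃ x : ℝ, ∀ s, ρ s = x := by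
    rintro ⟨x, hx⟩
    exact hslow x 0 fun t => by rw [hx t]; simp
  have hn' : ¬ ∃ x : ℝ, ∀ s, ρ' s = x := by
    rintro ⟨x, hx⟩
    refine hslow ((a : ℂ)⁻¹ * x) (-(a : ℂ)⁻¹) fun t => ?_
    have h1 := hρ' t
    rw [hx t] at h1
    rw [h1]
    field_simp
    ring
  have hprop : ¬ ∃ x : ℝ, ∀ t, ρ' t = x * ρ t := by
    rintro ⟨x, hx⟩
    have h1 : ∀ t : ℝ, ((x : ℂ) - a) * ρ t = p t := by
      intro t
      have h2 := hρ' t
      rw [hx t] at h2
      push_cast at h2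
      linear_combination h2
    by_cases hxa : (x : ℂ) - a = 0
    · obtain ⟨z, hz⟩ := hp0
      refine hz (Pool.Agent.TH242.MK.eq_of_real hp.1 (differentiable_const (0 : ℂ))
        (fun t => ?_) z)
      rw [← h1 t, hxa, zero_mul]
    · refine hslow 0 ((x : ℂ) - a)⁻¹ fun t => ?_
      rw [← h1 t]
      field_simp
      ring
  have hprop' : ¬ ∃ x : ℝ, ∀ t, ρ t = x * ρ' t := by
    rintro ⟨x, hx⟩
    refine hprop ⟨x⁻¹, fun t => ?_⟩
    have h2 : x ≠ 0 := by
      rintro rfl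
      have h3 := hO.2.2.1 0
      rw [hx 0, zero_mul] at h3
      exact lt_irrefl _ h3
    rw [hx t]
    field_simp
  obtain ⟨P, hP⟩ := ext hO (motion hO hR hRr) hI
  obtain ⟨P', hP'⟩ := ext hO' (motion hO' (R := fun z => a * R z + p z)
    ((hR.const_mul _).add hp.1) (fun x => by rw [hRr x, ← hρ' x])) hI'
  obtain ⟨σ1, h1, h1'⟩ := tm hp
  have hσ : max 0 σ1 < 1 := max_lt zero_lt_one h1
  have hσ0 : 0 ≤ max 0 σ1 := le_max_left _ _
  have h2 := Pool.Agent.TH242.MK.few (k := 1) (n := 2) (ρ := ![fun t => ρ t, fun t => ρ' t])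
    (R := ![P, P']) (by
      intro i
      fin_cases i
      · exact hP
      · exact hP') (by
      intro i
      fin_cases i
      · exact hn1
      · exact hn') (by
      intro i j hij
      fin_cases i <;> fin_cases j
      · exact absurd rfl hij
      · exact hprop'
      · exact hprop
      · exact absurd rfl hij) hσ0 hσ (fun _ t => (ρ t : ℂ)) (b := fun _ _ => 1)
      (c := ![fun _ _ => 1, fun _ _ => (a : ℂ)]) (q := ![fun _ => 0, p])
      (fun _ => Pool.Agent.TH242.MK.Tm.const hσ0 1) (fun _ => ⟨0, one_ne_zero⟩) (by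
      intro j i
      fin_cases j
      · exact Pool.Agent.TH242.MK.Tm.const hσ0 1
      · exact Pool.Agent.TH242.MK.Tm.const hσ0 a) (by
      intro j
      fin_cases j
      · exact Pool.Agent.TH242.MK.Tm.const hσ0 0
      · exact h1' _ (le_max_right _ _) (le_max_left _ _)) (by
      intro j x
      fin_cases j
      · simp
      · simp [hρ' x])
  exact absurd h2 (by norm_num)

end Pool.Agent.Results.MP_ae5b4e_an.FewInFamily
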