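import Pool.Agent.TH242.MK.OutReg

/-!
# Outer and inner billiards in ovals with an intrinsic equation of order less than one

The case of MP_ae5b4e_an in which all `σ_p` are the point reflections in `p` (outer billiards) and
the leaves are the level sets of a real analytic function near `γ`, and, by projective duality, the
inner billiard with a real analytic first integral near the boundary.

The oval `γ` is given by its intrinsic (natural) equation: a point moves on `γ` with speed `v(t)`
while its normal turns with angular velocity `w(t)`, both restrictions of `2π`-periodic entire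
functions.  If the radius of curvature `v/w` is a quotient of two entire functions which grow at
most like `exp(A e^{σ|z|})`, `σ < 1`, then an integrable oval is a circle.  In particular this
holds if the curvature is, as a function of the arc length, a trigonometric polynomial or any
entire function of order less than one in `e^{is}`.  The position `γ(θ(t))` is the integral of
`i v e^{iθ}` and in general not of order less than one in `e^{it}`, so that the theorems of this
problem on ovals parametrised by functions of order less than one do not apply.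

Proof.  Integrability makes the complexified curve regular at every complex time; there `v/w` has
neither zeros nor poles.  Hence `v/w = e^h`, `h` entire, and by a theorem of Borel's type with small
functions of order less than one in `e^{iz}` as coefficients, `h` is constant.
-/

set_option autoImplicit false

open Complex Set

namespace Pool.Agent.Results.MP_ae5b4e_an.IntrinsicOvals

/-- `γ` is a closed plane curve with positive continuous radius of curvature `ρ`, parametrised by
its normal angle: `γ'(s) = ρ(s) i e^{is}`; the outer unit normal at `γ s` is `e^{is}`. -/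
def IsOval (γ : ℝ → ℂ) (ρ : ℝ → ℝ) : Prop :=
  (∀ s, γ (s + 2 * Real.pi) = γ s) ∧ Continuous ρ ∧ (∀ s, 0 < ρ s) ∧
    ∀ s : ℝ, HasDerivAt γ ((ρ s : ℂ) * I * cexp (s * I)) s

/-- the point at signed distance `δ` from `γ s` on the tangent line at `γ s` -/
noncomputable def tangentPoint (γ : ℝ → ℂ) (s δ : ℝ) : ℂ := γ s + δ * (I * cexp (s * I))

/-- `K(x, y)` is a nonconstant real analytic first integral of the outer billiard about `γ` near
`γ`: it is analytic and nonconstant on a connected neighbourhood `U` of `γ`, and for every `s` it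
has the same value at the two points at distance `δ` from `γ s` on the tangent line at `γ s`, which
the reflection in `γ s` exchanges, for all small `δ > 0`. -/
def OuterIntegral (γ : ℝ → ℂ) (K : ℝ → ℝ → ℝ) (U : Set (ℝ × ℝ)) : Prop :=
  IsOpen U ∧ IsPreconnected U ∧ (∀ s, ((γ s).re, (γ s).im) ∈ U) ∧
    AnalyticOnNhd ℝ (Function.uncurry K) U ∧
    (∀ s : ℝ, ∃ ε > 0, ∀ δ : ℝ, 0 < δ → δ < ε →
      K (tangentPoint γ s δ).re (tangentPoint γ s δ).im
        = K (tangentPoint γ s (-δ)).re (tangentPoint γ s (-δ)).im) ∧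
    ∃ z ∈ U, ∃ w ∈ U, K z.1 z.2 ≠ K w.1 w.2

/-- support coordinate of the line with unit normal `e^{iφ}` through the point `z`: the line is
`{x | Re (x e^{-iφ}) = support z φ}` -/
noncomputable def support (z : ℂ) (φ : ℝ) : ℝ := (z * cexp (-(φ * I))).re

/-- `K(φ, p)` is a nonconstant real analytic first integral of the billiard inside `γ` near the
boundary: a function of the oriented line with normal angle `φ` and support coordinate `p`, which
is analytic and nonconstant near the tangent lines of `γ` (`|p - support (γ φ) φ| < ε`; periodicity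
in `φ` is not required), and which for every `s` has the same value at the two lines through `γ s`
with normal angles `s + δ` and `s - δ` (exchanged by the reflection in `γ` at `γ s`), for all small
`δ > 0`. -/
def InnerIntegral (γ : ℝ → ℂ) (K : ℝ → ℝ → ℝ) (ε : ℝ) : Prop :=
  0 < ε ∧ AnalyticOnNhd ℝ (Function.uncurry K) {z | |z.2 - support (γ z.1) z.1| < ε} ∧
    (∀ s : ℝ, ∃ εs > 0, ∀ δ : ℝ, 0 < δ → δ < εs →
      K (s + δ) (support (γ s) (s + δ)) = K (s - δ) (support (γ s) (s - δ))) ∧
    ∃ φ p ψ q : ℝ, |p - support (γ φ) φ| < ε ∧ |q - support (γ ψ) ψ| < ε ∧ K φ p ≠ K ψ q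

/-- the outer billiard about `γ` or the billiard inside `γ` has a nonconstant real analytic first
integral near `γ` -/
def IsIntegrable (γ : ℝ → ℂ) : Prop :=
  (∃ (K : ℝ → ℝ → ℝ) (U : Set (ℝ × ℝ)), OuterIntegral γ K U) ∨
    ∃ (K : ℝ → ℝ → ℝ) (ε : ℝ), InnerIntegral γ K ε

/-- `f` is entire with `|f(z)| ≤ exp (A e^{σ|z|})`, `σ < 1`; for example a trigonometric polynomial
or `G(e^{iz})`, where `G` is holomorphic on `ℂ ∖ {0}` of order less than one at `0` and `∞` -/
def Slow (f : ℂ → ℂ) : Prop :=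
  Differentiable ℂ f ∧ ∃ A σ : ℝ, σ < 1 ∧ ∀ z : ℂ, ‖f z‖ ≤ Real.exp (A * Real.exp (σ * ‖z‖))

/-- `t ↦ γ (θ t)`, where `θ` is onto and `γ` has the radius of curvature `ρ`, is a motion on `γ`
with angular velocity of the normal `θ' = w` and speed `ρ(θ) θ' = v`, where `v` and `w` are
`2π`-periodic entire functions -/
def IsMotion (ρ θ : ℝ → ℝ) (v w : ℂ → ℂ) : Prop :=
  Function.Surjective θ ∧ Differentiable ℂ v ∧ Differentiable ℂ w ∧
    (∀ z, v (z + 2 * Real.pi) = v z) ∧ (∀ z, w (z + 2 * Real.pi) = w z) ∧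
    (∀ t : ℝ, HasDerivAt (fun t : ℝ => (θ t : ℂ)) (w t) t) ∧ ∀ t : ℝ, v t = ρ (θ t) * w t

lemma tangentPoint_re (γ : ℝ → ℂ) (s δ : ℝ) :
    (tangentPoint γ s δ).re = (γ s).re - δ * Real.sin s := by
  simp [tangentPoint, Complex.exp_ofReal_mul_I_re, Complex.exp_ofReal_mul_I_im]
  ring

lemma tangentPoint_im (γ : ℝ → ℂ) (s δ : ℝ) :
    (tangentPoint γ s δ).im = (γ s).im + δ * Real.cos s := by
  simp [tangentPoint, Complex.exp_ofReal_mul_I_re, Complex.exp_ofReal_mul_I_im]

lemma oInt {γ : ℝ → ℂ} {K : ℝ → ℝ → ℝ} {U : Set (ℝ × ℝ)} (h : OuterIntegral γ K U) :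
    H719FX.OInt γ K U := by
  obtain ⟨h1, h2, h3, h4, h5, z, hz, w, hw, hne⟩ := h
  refine ⟨h1, h2, h3, h4, fun s => ?_, ?_⟩
  · obtain ⟨ε, hε, h⟩ := h5 s
    refine ⟨ε, hε, fun δ hδ hδ' => ?_⟩
    have := h δ hδ hδ'
    simpa [tangentPoint_re, tangentPoint_im, sub_eq_add_neg] using this
  · rintro ⟨c, hc⟩
    exact hne ((hc z hz).trans (hc w hw).symm)

lemma dat {γ : ℝ → ℂ} {ρ θ : ℝ → ℝ} {v w : ℂ → ℂ} (h : IsMotion ρ θ v w) :
    Pool.Agent.TH242.MK.Dat γ ρ θ v w :=
  ⟨h.2.1, h.2.2.1, h.2.2.2.1, h.2.2.2.2.1, h.1, h.2.2.2.2.2.1, h.2.2.2.2.2.2⟩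

lemma tm {f : ℂ → ℂ} (h : Slow f) : ∃ σ : ℝ, σ < 1 ∧ ∀ σ' : ℝ, σ ≤ σ' → 0 ≤ σ' →
    Pool.Agent.TH242.MK.Tm σ' f := by
  obtain ⟨hd, A, σ, hσ, hA⟩ := h
  refine ⟨σ, hσ, fun σ' h1 h2 => ⟨hd, max A 0, le_max_right _ _, fun z => (hA z).trans ?_⟩⟩
  apply Real.exp_le_exp.2
  have e1 : Real.exp (σ * ‖z‖) ≤ Real.exp (σ' * ‖z‖) :=
    Real.exp_le_exp.2 (mul_le_mul_of_nonneg_right h1 (norm_nonneg z))
  exact (mul_le_mul_of_nonneg_right (le_max_left A 0) (Real.exp_pos _).le).trans
    (mul_le_mul_of_nonneg_left e1 (le_max_right _ _))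

/-- the main theorem -/
lemma main {γ : ℝ → ℂ} {ρ θ : ℝ → ℝ} {v w b q : ℂ → ℂ} (hO : IsOval γ ρ)
    (hm : IsMotion ρ θ v w) (hb : Slow b) (hq : Slow q) (hb0 : ∃ z, b z ≠ 0)
    (hbq : ∀ t : ℝ, b t * ρ (θ t) = q t) (hI : IsIntegrable γ) :
    ∃ (z : ℂ) (r : ℝ), 0 < r ∧ Set.range γ = Metric.sphere z r := by
  have hOv : H738CZ.IsOval γ ρ := ⟨hO.1, hO.2.1, hO.2.2.1, hO.2.2.2⟩
  have hD : Pool.Agent.TH242.MK.Dat γ ρ θ v w := dat hm
  obtain ⟨Z, W, Θ, hc, hZ, hW⟩ := hD.curve hOv
  obtain ⟨σ1, h1, h1'⟩ := tm hb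
  obtain ⟨σ2, h2, h2'⟩ := tm hq
  have hσ : max 0 (max σ1 σ2) < 1 := max_lt zero_lt_one (max_lt h1 h2)
  have key : ∀ t0, H719FX.Reg Z W t0 := by
    intro t0
    rcases hI with ⟨K, U, hK⟩ | ⟨K, ε, hε, hK, hsym, φ, p, ψ, p', hp, hp', hne⟩
    · exact Pool.Agent.TH242.MK.outer_reg hOv (oInt hK) hD.cont hD.sur
        (fun t => (hc.hZ t).differentiableAt) (fun t => (hc.hW t).differentiableAt) hZ hW t0
    · exact Pool.Agent.TH242.MK.inner_reg hOv hε hK hsym (by
        rintro ⟨k, hk⟩
        exact hne ((hk φ p hp).trans (hk ψ p' hp').symm)) hD.cont hD.sur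
        (fun t => (hc.hZ t).differentiableAt) (fun t => (hc.hW t).differentiableAt) hZ hW t0
  obtain ⟨c, hcc⟩ := Pool.Agent.TH242.MK.intr_main hOv hD (le_max_left _ _) hσ
    (h1' _ ((le_max_left _ _).trans (le_max_right _ _)) (le_max_left _ _))
    (h2' _ ((le_max_right _ _).trans (le_max_right _ _)) (le_max_left _ _)) hb0 hbq hc key
  exact Pool.Agent.TH242.MK.circle hOv hcc

/-- Let `γ` be an oval with the radius of curvature `ρ` whose outer or inner billiard has a
nonconstant real analytic first integral near `γ`.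

1. If a point can move on `γ` such that its speed `v` and the angular velocity `w` of the normal are
`2π`-periodic entire functions and the radius of curvature along the motion is a quotient of two
entire functions of growth at most `exp (A e^{σ|z|})`, `σ < 1` (for example `v` and `w` themselves
are trigonometric polynomials), then `γ` is a circle.

2. If the curvature of `γ` is, as a function of the arc length `t`, the restriction of a
`2π`-periodic entire function of this growth, then `γ` is a circle. -/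
theorem result :
    (∀ (γ : ℝ → ℂ) (ρ θ : ℝ → ℝ) (v w b q : ℂ → ℂ), IsOval γ ρ → IsIntegrable γ →
      IsMotion ρ θ v w → Slow b → Slow q → (∃ z, b z ≠ 0) → (∀ t : ℝ, b t * ρ (θ t) = q t) →
      ∃ (z : ℂ) (r : ℝ), 0 < r ∧ Set.range γ = Metric.sphere z r) ∧
    ∀ (γ : ℝ → ℂ) (ρ θ κ : ℝ → ℝ) (k : ℂ → ℂ), IsOval γ ρ → IsIntegrable γ →
      Function.Surjective θ → (∀ t, HasDerivAt θ (κ t) t) → (∀ t, κ t = (ρ (θ t))⁻¹) →
      Slow k → (∀ z, k (z + 2 * Real.pi) = k z) → (∀ t : ℝ, k t = κ t) →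
      ∃ (z : ℂ) (r : ℝ), 0 < r ∧ Set.range γ = Metric.sphere z r := by
  refine ⟨fun γ ρ θ v w b q hO hI hm hb hq hb0 hbq => main hO hm hb hq hb0 hbq hI, ?_⟩
  intro γ ρ θ κ k hO hI hs hθ hκ hk hkp hkr
  have h1 : Slow (fun _ => (1 : ℂ)) := by
    refine ⟨differentiable_const _, 1, 0, zero_lt_one, fun z => ?_⟩
    simp
  have h2 : ∀ t : ℝ, k t * ρ (θ t) = 1 := by
    intro t
    have h3 : (ρ (θ t) : ℂ) ≠ 0 := by exact_mod_cast (hO.2.2.1 (θ t)).ne'
    rw [hkr t, hκ t]
    push_cast
    exact inv_mul_cancel₀ h3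
  refine main (v := fun _ => 1) (w := k) (b := k) (q := fun _ => 1) hO ⟨hs, h1.1, hk.1,
    fun _ => rfl, hkp, fun t => ?_, fun t => ?_⟩ hk h1 ⟨0, ?_⟩ h2 hI
  · rw [hkr t]
    exact (hθ t).ofReal_comp
  · rw [mul_comm]
    exact (h2 t).symm
  · intro h0
    have h4 := h2 0
    rw [ofReal_zero, h0, zero_mul] at h4
    exact zero_ne_one h4

end Pool.Agent.Results.MP_ae5b4e_an.IntrinsicOvals
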