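import Pool.Agent.U818.PC.Fin

/-!
# Integrable billiards: ramified places and powers of the curvature

The case of MP_ae5b4e_an in which all `σ_p` are the point reflections in `p` (outer billiards) and
the leaves are the level sets of a real analytic function near `γ`, and, by projective duality, the
inner billiard with a real analytic first integral near the boundary.

Let `γ` be an integrable oval and let some power `ρ^N` of its radius of curvature, as a function of
the normal angle, be a quotient `P / Q` of entire functions.  Then `P / Q` has no zeros in the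
complex plane, and all its poles have order at least `N`.  (For an ellipse `ρ^2 = 1 / q^3` with a
trigonometric polynomial `q` with simple zeros; so poles do occur.)  If moreover `P` and `Q` are of
growth at most `exp (A e^{σ|z|})`, `σ < 1`, for example trigonometric polynomials, and the poles of
`P / Q` are of order less than `N`, then `γ` is a circle.  So no power `ρ^(m/n)` of the radius of
curvature of an integrable oval is a trigonometric polynomial, except for the circle.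

Proof.  The complexified curve has only regular places: at each of them, after a ramified change of
parameter, the curve is immersed without inflection.  Then the normal angle is a local coordinate,
so that the radius of curvature cannot ramify, vanish or have a pole of order less than one at a
place of the curve.  Real entire functions `Θ` which map the segment from `0` to `i` to a curve from
the real line to a given zero of `P Q`, with ramification of order `N` there, and avoid the other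
zeros, make `ρ(Θ)` single valued.
-/

set_option autoImplicit false

open Complex Set Filter Topology

namespace Pool.Agent.Results.MP_ae5b4e_an.PowersOfCurvature

/-- `γ` is a closed plane curve with positive continuous radius of curvature `ρ`, parametrised by
its normal angle: `γ'(s) = ρ(s) i e^{is}`; the outer unit normal at `γ s` is `e^{is}`. -/
def IsOval (γ : ℝ → ℂ) (ρ : ℝ → ℝ) : Prop :=
  (∀ s, γ (s + 2 * Real.pi) = γ s) ∧ Continuous ρ ∧ (∀ s, 0 < ρ s) ∧
    ∀ s : ℝ, HasDerivAt γ ((ρ s : ℂ) * I * cexp (s * I)) s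

/-- the point at signed distance `δ` from `γ s` on the tangent line at `γ s` -/
noncomputable def tangentPoint (γ : ℝ → ℂ) (s δ : ℝ) : ℂ := γ s + δ * (I * cexp (s * I))

/-- `K(x, y)` is a nonconstant real analytic first integral of the outer billiard about `γ` near
`γ`: it is analytic and nonconstant on a connected neighbourhood `U` of `γ`, and for every `s` it
has the same value at the two points at distance `δ` from `γ s` on the tangent line at `γ s`, which
the reflection in `γ s` exchanges, for all small `δ > 0`. -/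
def OuterIntegral (γ : ℝ → ℂ) (K : ℝ → ℝ → ℝ) (U : Set (ℝ × ℝ)) : Prop :=
  IsOpen U ∧ IsPreconnected U ∧ (∀ s, ((γ s).re, (γ s).im) ∈ U) ∧
    AnalyticOnNhd ℝ (Function.uncurry K) U ∧
    (∀ s : ℝ, ∃ ε > 0, ∀ δ : ℝ, 0 < δ → δ < ε →
      K (tangentPoint γ s δ).re (tangentPoint γ s δ).im
        = K (tangentPoint γ s (-δ)).re (tangentPoint γ s (-δ)).im) ∧
    ∃ z ∈ U, ∃ w ∈ U, K z.1 z.2 ≠ K w.1 w.2

/-- support coordinate of the line with unit normal `e^{iφ}` through the point `z`: the line is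
`{x | Re (x e^{-iφ}) = support z φ}` -/
noncomputable def support (z : ℂ) (φ : ℝ) : ℝ := (z * cexp (-(φ * I))).re

/-- `K(φ, p)` is a nonconstant real analytic first integral of the billiard inside `γ` near the
boundary: a function of the oriented line with normal angle `φ` and support coordinate `p`, which
is analytic and nonconstant near the tangent lines of `γ` (`|p - support (γ φ) φ| < ε`; periodicity
in `φ` is not required), and which for every `s` has the same value at the two lines through `γ s`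
with normal angles `s + δ` and `s - δ` (exchanged by the reflection in `γ` at `γ s`), for all small
`δ > 0`. -/
def InnerIntegral (γ : ℝ → ℂ) (K : ℝ → ℝ → ℝ) (ε : ℝ) : Prop :=
  0 < ε ∧ AnalyticOnNhd ℝ (Function.uncurry K) {z | |z.2 - support (γ z.1) z.1| < ε} ∧
    (∀ s : ℝ, ∃ εs > 0, ∀ δ : ℝ, 0 < δ → δ < εs →
      K (s + δ) (support (γ s) (s + δ)) = K (s - δ) (support (γ s) (s - δ))) ∧
    ∃ φ p ψ q : ℝ, |p - support (γ φ) φ| < ε ∧ |q - support (γ ψ) ψ| < ε ∧ K φ p ≠ K ψ q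

/-- the outer billiard about `γ` or the billiard inside `γ` has a nonconstant real analytic first
integral near `γ` -/
def IsIntegrable (γ : ℝ → ℂ) : Prop :=
  (∃ (K : ℝ → ℝ → ℝ) (U : Set (ℝ × ℝ)), OuterIntegral γ K U) ∨
    ∃ (K : ℝ → ℝ → ℝ) (ε : ℝ), InnerIntegral γ K ε

/-- `f` is entire with `|f(z)| ≤ exp (A e^{σ|z|})`, `σ < 1`; for example a trigonometric polynomial
or `G(e^{iz})`, where `G` is holomorphic on `ℂ ∖ {0}` of order less than one at `0` and `∞` -/
def Slow (f : ℂ → ℂ) : Prop :=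
  Differentiable ℂ f ∧ ∃ A σ : ℝ, σ < 1 ∧ ∀ z : ℂ, ‖f z‖ ≤ Real.exp (A * Real.exp (σ * ‖z‖))

/-- the oval is a circle -/
def IsCircle (γ : ℝ → ℂ) : Prop := ∃ (z : ℂ) (r : ℝ), 0 < r ∧ Set.range γ = Metric.sphere z r

lemma tangentPoint_re (γ : ℝ → ℂ) (s δ : ℝ) :
    (tangentPoint γ s δ).re = (γ s).re - δ * Real.sin s := by
  simp [tangentPoint, Complex.exp_ofReal_mul_I_re, Complex.exp_ofReal_mul_I_im]
  ring

lemma tangentPoint_im (γ : ℝ → ℂ) (s δ : ℝ) :
    (tangentPoint γ s δ).im = (γ s).im + δ * Real.cos s := by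
  simp [tangentPoint, Complex.exp_ofReal_mul_I_re, Complex.exp_ofReal_mul_I_im]

lemma oInt {γ : ℝ → ℂ} {K : ℝ → ℝ → ℝ} {U : Set (ℝ × ℝ)} (h : OuterIntegral γ K U) :
    H719FX.OInt γ K U := by
  obtain ⟨h1, h2, h3, h4, h5, z, hz, w, hw, hne⟩ := h
  refine ⟨h1, h2, h3, h4, fun s => ?_, ?_⟩
  · obtain ⟨ε, hε, h⟩ := h5 s
    refine ⟨ε, hε, fun δ hδ hδ' => ?_⟩
    have := h δ hδ hδ'
    simpa [tangentPoint_re, tangentPoint_im, sub_eq_add_neg] using this
  · rintro ⟨c, hc⟩
    exact hne ((hc z hz).trans (hc w hw).symm)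

lemma tm {f : ℂ → ℂ} (h : Slow f) : ∃ σ : ℝ, σ < 1 ∧ ∀ σ' : ℝ, σ ≤ σ' → 0 ≤ σ' →
    Pool.Agent.TH242.MK.Tm σ' f := by
  obtain ⟨hd, A, σ, hσ, hA⟩ := h
  refine ⟨σ, hσ, fun σ' h1 h2 => ⟨hd, max A 0, le_max_right _ _, fun z => (hA z).trans ?_⟩⟩
  apply Real.exp_le_exp.2
  have e1 : Real.exp (σ * ‖z‖) ≤ Real.exp (σ' * ‖z‖) :=
    Real.exp_le_exp.2 (mul_le_mul_of_nonneg_right h1 (norm_nonneg z))
  exact (mul_le_mul_of_nonneg_right (le_max_left A 0) (Real.exp_pos _).le).trans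
    (mul_le_mul_of_nonneg_left e1 (le_max_right _ _))

lemma ovl {γ : ℝ → ℂ} {ρ : ℝ → ℝ} (hO : IsOval γ ρ) : H738CZ.IsOval γ ρ :=
  ⟨hO.1, hO.2.1, hO.2.2.1, hO.2.2.2⟩

lemma common {ι : Type} [Finite ι] {f : ι → ℂ → ℂ} (h : ∀ i, Slow (f i)) :
    ∃ σ : ℝ, σ < 1 ∧ ∀ σ' : ℝ, σ ≤ σ' → 0 ≤ σ' → ∀ i, Pool.Agent.TH242.MK.Tm σ' (f i) := by
  choose s hs hs' using fun i => tm (h i)
  have : Nonempty (Set.Iio (1 : ℝ)) := ⟨⟨0, Set.mem_Iio.2 zero_lt_one⟩⟩
  obtain ⟨M, hM⟩ := Finite.exists_le (fun i => (⟨s i, hs i⟩ : Set.Iio (1 : ℝ)))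
  refine ⟨M.1, M.2, fun σ' h1 h2 i => hs' i σ' ?_ h2⟩
  have h3 : s i ≤ M.1 := hM i
  exact h3.trans h1

/-- the radius of curvature is periodic -/
lemma per {γ : ℝ → ℂ} {ρ : ℝ → ℝ} (hO : IsOval γ ρ) (s : ℝ) : ρ (s + 2 * Real.pi) = ρ s := by
  obtain ⟨h1, -, -, h4⟩ := hO
  have e1 : HasDerivAt (fun s : ℝ => γ (s + 2 * Real.pi))
      ((ρ (s + 2 * Real.pi) : ℂ) * I * cexp ((s + 2 * Real.pi : ℝ) * I)) s :=
    (h4 (s + 2 * Real.pi)).comp_add_const s (2 * Real.pi)
  have e2 : (fun s : ℝ => γ (s + 2 * Real.pi)) = γ := funext h1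
  rw [e2] at e1
  have e3 := e1.unique (h4 s)
  have e4 : cexp ((s + 2 * Real.pi : ℝ) * I) = cexp (s * I) := by
    have : ((s + 2 * Real.pi : ℝ) : ℂ) * I = s * I + 2 * Real.pi * I := by push_cast; ring
    rw [this, Complex.exp_add, Complex.exp_two_pi_mul_I, mul_one]
  rw [e4] at e3
  have e5 : cexp (s * I) ≠ 0 := Complex.exp_ne_zero _
  have e6 := mul_right_cancel₀ I_ne_zero (mul_right_cancel₀ e5 e3)
  exact_mod_cast e6

lemma con {γ : ℝ → ℂ} {ρ : ℝ → ℝ} (hO : IsOval γ ρ) (hI : IsIntegrable γ) :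
    Pool.Agent.U818.PC.Con γ := by
  intro n a r Z W hch θ x0 x1 hθ hJ hne t0 ht0
  rcases hI with ⟨K, U, hK⟩ | ⟨K, ε, hε, hK, hsym, φ, p, ψ, p', hp, hp', hpne⟩
  · exact H719FX.fin_ofo γ ρ (ovl hO) K U (oInt hK) n a r Z W hch θ x0 x1 hθ hJ hne t0 ht0
  · exact H719FX.fin_flz γ ρ (ovl hO) K ε hε hK hsym (by
      rintro ⟨k, hk⟩
      exact hpne ((hk φ p hp).trans (hk ψ p' hp').symm)) n a r Z W hch θ x0 x1 hθ hJ hne t0 ht0

lemma circle {γ : ℝ → ℂ} {ρ : ℝ → ℝ} {N : ℕ} {P Q : ℂ → ℂ} (hO : IsOval γ ρ)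
    (hI : IsIntegrable γ) (hN : N ≠ 0) (hP : Slow P) (hQ : Slow Q) (hQ0 : ∃ z, Q z ≠ 0)
    (h : ∀ x : ℝ, Q x * (ρ x : ℂ) ^ N = P x)
    (ho : ∀ z, analyticOrderAt Q z < analyticOrderAt P z + N) : IsCircle γ := by
  obtain ⟨σ1, h1, h1'⟩ := tm hP
  obtain ⟨σ2, h2, h2'⟩ := tm hQ
  obtain ⟨σ, hσdef⟩ : ∃ σ : ℝ, σ = max 0 (max σ1 σ2) := ⟨_, rfl⟩
  have hσ : σ < 1 := by rw [hσdef]; exact max_lt zero_lt_one (max_lt h1 h2)
  have hσ0 : 0 ≤ σ := by rw [hσdef]; exact le_max_left _ _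
  have e1 : σ1 ≤ σ := by rw [hσdef]; exact (le_max_left _ _).trans (le_max_right _ _)
  have e2 : σ2 ≤ σ := by rw [hσdef]; exact (le_max_right _ _).trans (le_max_right _ _)
  obtain ⟨c, hc⟩ := Pool.Agent.U818.PC.const (ovl hO) (per hO) (con hO hI) hN hσ0 hσ
    (h1' σ e1 hσ0) (h2' σ e2 hσ0) hQ0 h ho
  exact Pool.Agent.TH242.MK.circle (ovl hO) hc

/-- Let `γ` be an oval with the radius of curvature `ρ` as a function of the normal angle, and let
the outer billiard about `γ` or the billiard inside `γ` have a nonconstant real analytic first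
integral near `γ`.

1. Let `Θ` and `v` be analytic functions in an open convex set `T`, and let `Θ` be real with
`v = ρ(Θ) Θ'` on a real interval in `T`, where `Θ` is not constant.  Then near each point `t0` of
`T` there is `v = g(Θ) Θ'` with a function `g` which is analytic and does not vanish at `Θ(t0)`: the
continuations of `ρ` have no zeros and no ramification where `ρ dΘ` is holomorphic.

2. Let `Q ρ^N = P` on the real line, where `N ≥ 1` and `P`, `Q ≠ 0` are entire functions.  Then at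
every point `z` of the complex plane the orders satisfy `ord_z P = ord_z Q` or
`ord_z P + N ≤ ord_z Q`.

3. Let `Q (ρ - c)^N = P` on the real line, where `N ≥ 1` and `c`, `P ≠ 0`, `Q ≠ 0` are entire
functions, and let `ord_z Q < ord_z P + N` at a point `z` which is not real.  Then `P = G^N Q` near
`z` with an analytic function `G`, and `c(z) + G(z) ≠ 0`.

4. Let `Q ρ^N = P` on the real line, where `N ≥ 1`, and `P`, `Q ≠ 0` are slow entire functions
(of growth at most `exp (A e^{σ|z|})`, `σ < 1`, for example trigonometric polynomials).  If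
`ord_z Q < ord_z P + N` at all points `z` of the complex plane (for example, if all zeros of `Q`
have order less than `N`), then `γ` is a circle. -/
theorem result :
    (∀ (γ : ℝ → ℂ) (ρ : ℝ → ℝ) (T : Set ℂ) (Θ v : ℂ → ℂ) (x0 x1 : ℝ), IsOval γ ρ →
      IsIntegrable γ → IsOpen T → Convex ℝ T → DifferentiableOn ℂ Θ T →
      DifferentiableOn ℂ v T →
      (∀ t ∈ Ioo x0 x1, (t : ℂ) ∈ T ∧ (Θ t).im = 0 ∧ v t = ρ (Θ t).re * deriv Θ t) →
      (∃ t ∈ Ioo x0 x1, deriv Θ t ≠ 0) → ∀ t0 ∈ T, ∃ g : ℂ → ℂ, AnalyticAt ℂ g (Θ t0) ∧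
        g (Θ t0) ≠ 0 ∧ ∀ᶠ t in 𝓝 t0, v t = g (Θ t) * deriv Θ t) ∧
    (∀ (γ : ℝ → ℂ) (ρ : ℝ → ℝ) (N : ℕ) (P Q : ℂ → ℂ), IsOval γ ρ → IsIntegrable γ → N ≠ 0 →
      Differentiable ℂ P → Differentiable ℂ Q → (∃ z, Q z ≠ 0) →
      (∀ x : ℝ, Q x * (ρ x : ℂ) ^ N = P x) → ∀ z : ℂ,
        analyticOrderAt P z = analyticOrderAt Q z ∨
          analyticOrderAt P z + N ≤ analyticOrderAt Q z) ∧
    (∀ (γ : ℝ → ℂ) (ρ : ℝ → ℝ) (N : ℕ) (c P Q : ℂ → ℂ), IsOval γ ρ → IsIntegrable γ → N ≠ 0 →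
      Differentiable ℂ c → Differentiable ℂ P → Differentiable ℂ Q → (∃ z, P z ≠ 0) →
      (∃ z, Q z ≠ 0) → (∀ x : ℝ, Q x * (ρ x - c x) ^ N = P x) → ∀ z : ℂ, z.im ≠ 0 →
      analyticOrderAt Q z < analyticOrderAt P z + N → ∃ G : ℂ → ℂ, AnalyticAt ℂ G z ∧
        (∀ᶠ w in 𝓝 z, P w = G w ^ N * Q w) ∧ c z + G z ≠ 0) ∧
    ∀ (γ : ℝ → ℂ) (ρ : ℝ → ℝ) (N : ℕ) (P Q : ℂ → ℂ), IsOval γ ρ → IsIntegrable γ → N ≠ 0 →
      Slow P → Slow Q → (∃ z, Q z ≠ 0) → (∀ x : ℝ, Q x * (ρ x : ℂ) ^ N = P x) →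
      (∀ z : ℂ, analyticOrderAt Q z < analyticOrderAt P z + N) → IsCircle γ := by
  refine ⟨?_, ?_, ?_, ?_⟩
  · intro γ ρ T Θ v x0 x1 hO hI hTo hT hΘ hv hJ hnc t0 ht0
    exact Pool.Agent.U818.PC.place (ovl hO) (con hO hI) hT hTo hΘ hv hJ hnc ht0
  · intro γ ρ N P Q hO hI hN hP hQ hQ0 h z
    exact Pool.Agent.U818.PC.orders (ovl hO) (con hO hI) hN hP hQ hQ0 h z
  · intro γ ρ N c P Q hO hI hN hc hP hQ hP0 hQ0 h z hz ho
    obtain ⟨p, hp⟩ := Pool.Agent.U818.PC.order_ne_top hP hP0 z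
    obtain ⟨q, hq⟩ := Pool.Agent.U818.PC.order_ne_top hQ hQ0 z
    rw [hp, hq] at ho
    obtain ⟨G, h1, h2, h3⟩ := Pool.Agent.U818.PC.local_root (ovl hO) (con hO hI) hN hc hP hQ hP0
      hQ0 h hz hp hq (by exact_mod_cast ho)
    exact ⟨G, h1, by filter_upwards [h2] with w hw using hw.symm, h3⟩
  · intro γ ρ N P Q hO hI hN hP hQ hQ0 h ho
    exact circle hO hI hN hP hQ hQ0 h ho

end Pool.Agent.Results.MP_ae5b4e_an.PowersOfCurvature
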